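import Pool.Agent.Q105.MN.Glue

/-!
# Surjectivity of the Stolz index map: HNN extensions, infinite cyclic quotients and germs

Let `R n`, `E n` be functors from groups and injective homomorphisms to abelian groups with natural
transformations `θ n : R n → E n`; for the Stolz index map `R n (Γ)` is the relative psc bordism group of
`BΓ` with the Bott manifold inverted and `E n (Γ) = KO_n(C*_r(Γ; ℝ))`.  The only property of the bordism groups
that goes beyond functoriality is gluing: bordisms between the two images of an element of `R n (A)` in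
`R n (G)` can be closed up to an element of `R (n + 1)` of the HNN extension.  Injectivity of `θ` or of the
Baum–Connes assembly map is not needed in most statements.
-/

set_option autoImplicit false

namespace Pool.Agent.Results.MP_b169d2_gt.GluingAndSurjectivity

open Pool.Agent.Q262.NV Pool.Agent.Q105.MG Topology

/-- The standing assumptions: boundary maps and gluing for HNN extensions, continuity for directed unions,
inner automorphisms act trivially. -/
structure Stolz {R E : ℤ → MFun} (θ : ∀ n, MNat (R n) (E n)) : Prop where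
  gluing : ∀ n, Gluing (θ (n + 1)) (θ n)
  contR : ∀ n, ContM (R n)
  contE : ∀ n, ContM (E n)
  innerR : ∀ n, InnerTrivM (R n)

/-- The cokernels of all `θ n` for the group `G` are `S`-torsion. (For `S = {1}`: all `θ n` are onto for `G`;
for `S` the set of all positive numbers: they are rationally onto.) -/
def CokTors {R E : ℤ → MFun} (θ : ∀ n, MNat (R n) (E n)) (S : Submonoid ℕ) (G : Type) [Group G] :
    Prop := ∀ n, CokS S (θ n) G

/-- Let `P` be an isomorphism `φ : A → B` of subgroups of `G`. If the cokernels are `S`-torsion for `G` in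
degree `n + 1` and for `A` in degree `n`, so is the cokernel for the HNN extension of `G` along `φ` in degree
`n + 1`, provided that `φ` agrees on every finite subset of `A` with the conjugation by an element of `G`, or
that the kernel for `G` in degree `n` is `S`-torsion. -/
def HnnCokernels {R E : ℤ → MFun} (θ : ∀ n, MNat (R n) (E n)) : Prop :=
  ∀ (S : Submonoid ℕ) (n : ℤ) (G : Type) [Group G] (P : PIso G),
    (P.LocallyInner ∨ KerTor S (θ n) G) → CokS S (θ (n + 1)) G → CokS S (θ n) P.A →
      CokS S (θ (n + 1)) P.Ext

/-- Let `Γ` be a group with a surjective homomorphism `π` to `ℤ` with kernel `N`, such that for every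
finite subset `F` of `N` some `γ` in `Γ` commutes with all elements of `F`, with `π(γ) = m` in `S`. If the
cokernels are `S`-torsion for `N`, they are for `Γ`. -/
def CyclicQuotients {R E : ℤ → MFun} (θ : ∀ n, MNat (R n) (E n)) : Prop :=
  ∀ (S : Submonoid ℕ) (Γ : Type) [Group Γ] (π : Γ →* Multiplicative ℤ), Function.Surjective π →
    (∀ F : Finset Γ, (∀ a ∈ F, π a = 1) → ∃ (m : ℕ) (γ : Γ), m ∈ S ∧
      π γ = Multiplicative.ofAdd (m : ℤ) ∧ ∀ a ∈ F, γ * a = a * γ) →
    CokTors θ S π.ker → CokTors θ S Γ

/-- Let `Γ` be reached from the subgroup `N` by an ascending series with infinite cyclic factors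
(`Tower`), and suppose that for all `γ` in `Γ` and finite subsets `F` of `Γ` there are `m` in `S` and `ν` in
`N` such that `γ^m ν` commutes with all elements of `F`. If the cokernels are `S`-torsion for `N`, they are
for `Γ`. -/
def AscendingSeries {R E : ℤ → MFun} (θ : ∀ n, MNat (R n) (E n)) : Prop :=
  ∀ (S : Submonoid ℕ) (Γ : Type) [Group Γ] (N : Subgroup Γ), Tower N ⊤ →
    (∀ (γ : Γ) (F : Finset Γ), ∃ (m : ℕ) (ν : Γ), m ∈ S ∧ ν ∈ N ∧
      ∀ a ∈ F, γ ^ m * ν * a = a * (γ ^ m * ν)) →
    CokTors θ S N → CokTors θ S Γ

/-- Let `Γ` act faithfully on a topological space `X` with a point `p`, and let `π` be a surjective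
homomorphism to `ℤ` whose kernel consists of the elements which act trivially near `p` (so `ℤ` is the
group of germs at `p`), such that for every neighbourhood `U` of `p` there is `γ` in `Γ` with `π(γ)` in `S`
which acts trivially outside `U`. If for all neighbourhoods `U` of `p` the cokernels are `S`-torsion for the
subgroup of the elements which act trivially on `U`, they are for `Γ`. -/
def Germs {R E : ℤ → MFun} (θ : ∀ n, MNat (R n) (E n)) : Prop :=
  ∀ (S : Submonoid ℕ) (Γ X : Type) [Group Γ] [TopologicalSpace X] [MulAction Γ X]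
    [FaithfulSMul Γ X] (p : X) (π : Γ →* Multiplicative ℤ), Function.Surjective π →
    (∀ g, π g = 1 ↔ ∃ U ∈ 𝓝 p, ∀ x ∈ U, g • x = x) →
    (∀ U ∈ 𝓝 p, ∃ (m : ℕ) (γ : Γ), m ∈ S ∧ π γ = Multiplicative.ofAdd (m : ℤ) ∧
      ∀ x, x ∉ U → γ • x = x) →
    (∀ U ∈ 𝓝 p, CokTors θ S (fixingSubgroup Γ U)) → CokTors θ S Γ

/-- For all natural transformations with the standing assumptions: the cokernels for HNN extensions, for
groups with an infinite cyclic quotient or an ascending series with infinite cyclic factors and enough
commuting elements, and for groups of transformations with an infinite cyclic group of germs at a fixed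
point. -/
theorem result {R E : ℤ → MFun} (θ : ∀ n, MNat (R n) (E n)) (h : Stolz θ) :
    HnnCokernels θ ∧ CyclicQuotients θ ∧ AscendingSeries θ ∧ Germs θ := by
  obtain ⟨hg, hcR, hcE, hiR⟩ := h
  refine ⟨?_, ?_, ?_, ?_⟩
  · rintro S n G _ P (h | h) hG hA
    · exact cok_loc (hg n) (hcR _) (hiR _) h hG hA
    · exact cok_hnn (hg n) h hG hA
  · intro S Γ _ π hπ h hN n
    obtain ⟨n, rfl⟩ : ∃ k, n = k + 1 := ⟨n - 1, by ring⟩
    exact cok_cyc π (hg n) (hcR _) (hiR _) hπ h (hN _) (hN _)
  · intro S Γ _ N hT h hN n
    exact cok_equiv (Subgroup.topEquiv (G := Γ)).symm (cok_tower hg hcR hcE hiR h hT hN n)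
  · intro S Γ X _ _ _ _ p π hπ hker hsm hN n
    exact cok_germ hg hcR hcE hiR p π hπ hker hsm (fun n U hU => hN U hU n) n

end Pool.Agent.Results.MP_b169d2_gt.GluingAndSurjectivity
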